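import Pool.Agent.Q299.CY.Main

/-!
# MP_4376e9_pr, Q2: the rate function of `C_{2k}`-free random graphs is analytic

For every `k ≥ 2` and every `c > 0` the limit
`lim n^{-2k/(2k-1)} log P(G(n, c n^{-(2k-2)/(2k-1)}) is C_{2k}-free)`
exists, it is given by an explicit formula, and it is an analytic function of `c` on `(0, ∞)`.
-/

namespace Pool.Agent.Results.MP_4376e9_pr.EvenCycleRate

open Filter Topology Pool.Agent.Q299.CY

open Classical in
/-- The probability that the binomial random graph `G(n, p)` has the property `P`: a graph `G` on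
`Fin n` with `e(G)` edges has probability `p ^ e(G) * (1 - p) ^ (n.choose 2 - e(G))`. -/
noncomputable def gnpProb (n : ℕ) (p : ℝ) (P : SimpleGraph (Fin n) → Prop) : ℝ :=
  ∑ G : SimpleGraph (Fin n),
    if P G then p ^ G.edgeFinset.card * (1 - p) ^ (n.choose 2 - G.edgeFinset.card) else 0

theorem gnpProb_eq (n : ℕ) (p : ℝ) (P : SimpleGraph (Fin n) → Prop) :
    gnpProb n p P = gnp n p P := rfl

/-- The `n`-th value. -/
theorem value_eq {k : ℕ} (hk : 2 ≤ k) (N : ℕ) (c : ℝ) :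
    (((N + 1 : ℕ) : ℝ) ^ (-(2 * k : ℝ) / (2 * k - 1)) *
        Real.log (gnpProb (N + 1) (c * ((N + 1 : ℕ) : ℝ) ^ (-(2 * k - 2 : ℝ) / (2 * k - 1)))
          (fun G => (SimpleGraph.cycleGraph (2 * k)).Free G)))
      = -(1 / 2) * Dn k N (((N + 1 : ℕ) : ℝ) ^ (1 / (2 * k - 1 : ℝ))) c := by
  have hk2 : (2:ℝ) ≤ k := by exact_mod_cast hk
  have hl : (0:ℝ) < 2 * k - 1 := by linarith
  set n : ℝ := ((N + 1 : ℕ) : ℝ) with hn
  have hn0 : 0 < n := by rw [hn]; positivity
  set m : ℝ := n ^ (1 / (2 * k - 1 : ℝ)) with hm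
  have hm0 : 0 < m := Real.rpow_pos_of_pos hn0 _
  have e1 : n ^ (-(2 * k - 2 : ℝ) / (2 * k - 1)) = m / n := by
    have h1 : -(2 * k - 2 : ℝ) / (2 * k - 1) = 1 / (2 * k - 1) - 1 := by
      field_simp
      ring
    rw [h1, Real.rpow_sub hn0, Real.rpow_one]
  have e2 : n ^ (-(2 * k : ℝ) / (2 * k - 1)) = 1 / (n * m) := by
    have h1 : -(2 * k : ℝ) / (2 * k - 1) = -(1 + 1 / (2 * k - 1)) := by
      field_simp
      ring
    rw [h1, Real.rpow_neg hn0.le, Real.rpow_add hn0, Real.rpow_one, ← hm, one_div]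
  rw [e1, e2, gnpProb_eq, gnp_eq_ZZ _ _ (by omega)]
  unfold Dn
  rw [← hn, mul_div_assoc]
  ring

theorem result : ∀ k : ℕ, 2 ≤ k → ∃ φ : ℝ → ℝ,
    (∀ c : ℝ, 0 < c → Tendsto (fun n : ℕ => (n : ℝ) ^ (-(2 * k : ℝ) / (2 * k - 1)) *
        Real.log (gnpProb n (c * (n : ℝ) ^ (-(2 * k - 2 : ℝ) / (2 * k - 1)))
          (fun G => (SimpleGraph.cycleGraph (2 * k)).Free G))) atTop (𝓝 (φ c))) ∧
    AnalyticOnNhd ℝ φ (Set.Ioi 0) ∧
    (∀ c : ℝ, 0 < c → ∃ r : ℝ, (0 < r ∧ r * Real.exp (r ^ (2 * k - 1)) = c) ∧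
      (∀ t : ℝ, 0 < t → t * Real.exp (t ^ (2 * k - 1)) = c → t = r) ∧
      φ c = -(1 / 2) * (c - r - (1 - 1 / (2 * k)) * r ^ (2 * k))) := by
  intro k hk
  refine ⟨fun c => -(1 / 2) * Ds k c, ?_, ?_, ?_⟩
  · intro c hc
    have hk2 : (2:ℝ) ≤ k := by exact_mod_cast hk
    have hl : (0:ℝ) < 2 * k - 1 := by linarith
    rw [← tendsto_add_atTop_iff_nat 1]
    set c1 : ℝ := c + 1 with hc1
    have hc10 : 0 < c1 := by linarith
    set mm : ℕ → ℝ := fun N => ((N + 1 : ℕ) : ℝ) ^ (1 / (2 * k - 1 : ℝ)) with hmm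
    have hmtop : Tendsto mm atTop atTop := by
      have h1 : Tendsto (fun N : ℕ => ((N + 1 : ℕ) : ℝ)) atTop atTop :=
        tendsto_natCast_atTop_atTop.comp (tendsto_add_atTop_nat 1)
      exact (tendsto_rpow_atTop (by positivity)).comp h1
    set K : ℝ := 3 * (C1 k c1 + C3 k c1 + 2 * c1)
        * Real.exp ((C2 k c1 / (1 / (8 * c1)) + 1) * c1) with hK
    have hbound : ∀ᶠ N : ℕ in atTop, |Dn k N (mm N) c - Ds k c| ≤ K * (1 / mm N) := by
      filter_upwards [hmtop.eventually_ge_atTop 1, hmtop.eventually_ge_atTop (2 * c1),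
        eventually_ge_atTop 2] with N h1 h2 h3
      have hn : ((N + 1 : ℕ) : ℝ) = (mm N) ^ (2 * k - 1) := by
        rw [hmm]
        simp only
        rw [← Real.rpow_natCast, ← Real.rpow_mul (by positivity)]
        have e : (1 / (2 * k - 1 : ℝ)) * ((2 * k - 1 : ℕ) : ℝ) = 1 := by
          rw [Nat.cast_sub (by omega)]
          push_cast
          field_simp
        rw [e, Real.rpow_one]
      have h4 := Dn_main hk h3 h1 hn hc10 h2 c ⟨hc.le, by linarith⟩
      refine h4.trans (le_of_eq ?_)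
      rw [hK]
      ring
    have hlim : Tendsto (fun N : ℕ => Dn k N (mm N) c) atTop (𝓝 (Ds k c)) := by
      rw [tendsto_iff_norm_sub_tendsto_zero]
      have h1 : Tendsto (fun N : ℕ => K * (1 / mm N)) atTop (𝓝 0) := by
        have h2 : Tendsto (fun N : ℕ => 1 / mm N) atTop (𝓝 0) := by
          simp only [one_div]
          exact tendsto_inv_atTop_zero.comp hmtop
        simpa using h2.const_mul K
      refine squeeze_zero' (Eventually.of_forall (fun N => norm_nonneg _)) ?_ h1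
      filter_upwards [hbound] with N hN
      rw [Real.norm_eq_abs]
      exact hN
    have h5 := hlim.const_mul (-(1 / 2))
    refine h5.congr (fun N => ?_)
    exact (value_eq hk N c).symm
  · intro c hc
    exact analyticAt_const.mul (Ds_analytic k hc)
  · intro c hc
    refine ⟨rr (2 * k - 1) c, ⟨rr_pos _ hc, psi_rr _ hc⟩, ?_, rfl⟩
    intro t ht htc
    exact root_unique (2 * k - 1) ht (rr_pos _ hc) (htc.trans (psi_rr _ hc).symm)

end Pool.Agent.Results.MP_4376e9_pr.EvenCycleRate
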